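import Pool.Agent.Helper83_S1S3.Stmts

/-!
# Modules NECK and CXS
-/

set_option autoImplicit false
set_option linter.unusedSectionVars false

open scoped Manifold ContDiff Topology
open CategoryTheory Set

noncomputable section

namespace Pool.Agent.S1S3

namespace Neck2

/-! ### products with the circle -/

/-- the fibre inclusion -/
def inc (Z : Type) [TopologicalSpace Z] : C(Z, Circle × Z) := ⟨fun z => (1, z), by fun_prop⟩

/-- the covering map `ℝ × Z → S¹ × Z` -/
def phi (Z : Type) [TopologicalSpace Z] : C(ℝ × Z, Circle × Z) :=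
  ⟨fun q => (Circle.exp (2 * Real.pi * q.1), q.2),
    (Circle.exp.continuous.comp (by fun_prop)).prodMk continuous_snd⟩

/-- the exponential on an interval of length one -/
theorem exp_openEmbedding (a : ℝ) :
    Topology.IsOpenEmbedding fun θ : Ioo a (a + 1) => Circle.exp (2 * Real.pi * (θ : ℝ)) := by
  have hc : Continuous fun θ : Ioo a (a + 1) => Circle.exp (2 * Real.pi * (θ : ℝ)) :=
    Circle.exp.continuous.comp (by fun_prop)
  refine Topology.IsOpenEmbedding.of_continuous_injective_isOpenMap hc ?_ ?_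
  · intro x y h
    have h1 : Circle.exp (2 * Real.pi * (x : ℝ) - 2 * Real.pi * (y : ℝ)) = 1 := by
      rw [Circle.exp_sub]
      simp only at h
      rw [h, div_self']
    obtain ⟨n, hn⟩ := Circle.exp_eq_one.1 h1
    have h2 : (x : ℝ) - y = n := by
      have hpi := Real.pi_pos
      have : (2 * Real.pi) * ((x : ℝ) - y) = (2 * Real.pi) * n := by linarith
      exact mul_left_cancel₀ (by positivity) this
    have hx := x.2
    have hy := y.2
    simp only [mem_Ioo] at hx hy
    have h3 : n = 0 := by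
      have h4 : (n : ℝ) < 1 := by linarith
      have h5 : (-1 : ℝ) < n := by linarith
      have h6 : n < 1 := by exact_mod_cast h4
      have h7 : -1 < n := by exact_mod_cast h5
      omega
    rw [h3] at h2
    apply Subtype.ext
    push_cast at h2
    linarith
  · have h1 : IsOpenMap (Circle.exp : ℝ → Circle) := Circle.isCoveringMap_exp.isLocalHomeomorph.isOpenMap
    have h2 : IsOpenMap fun t : ℝ => 2 * Real.pi * t :=
      (Homeomorph.mulLeft₀ (2 * Real.pi) (by positivity)).isOpenMap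
    exact (h1.comp h2).comp isOpen_Ioo.isOpenMap_subtype_val

theorem wang_circle (hF : FunctStatement) (hW : WangStatement) (Z : Type) [TopologicalSpace Z] :
    ∃ D : ∀ i : ℕ, HH (i + 1) (Circle × Z) →+ HH i Z,
      (∀ i, Function.Injective (Hm i (inc Z))) ∧
      (∀ i, Function.Exact (Hm (i + 1) (inc Z)) (D i)) ∧
      (∀ i, Function.Surjective (D i)) ∧ Function.Surjective (Hm 0 (inc Z)) := by
  obtain ⟨D, h1, h2, h3, h4⟩ := hW (Circle × Z) Z (phi Z) (Homeomorph.refl Z)
    ⟨Prod.fst, continuous_fst⟩ (fun θ z => rfl) (fun θ z => by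
      change (Circle.exp (2 * Real.pi * (θ + 1)), z) = (Circle.exp (2 * Real.pi * θ), z)
      rw [mul_add, mul_one, Circle.exp_add, Circle.exp_two_pi, mul_one]) (by
      rintro ⟨c, z⟩
      obtain ⟨t, ht⟩ := Circle.exp_surjective c
      refine ⟨(t / (2 * Real.pi), z), ?_⟩
      change (Circle.exp (2 * Real.pi * (t / (2 * Real.pi))), z) = (c, z)
      rw [mul_div_cancel₀ _ (by positivity), ht]) (fun a =>
      (exp_openEmbedding a).prodMap Topology.IsOpenEmbedding.id)
  have e : (phi Z).comp ⟨fun z => ((0 : ℝ), z), by fun_prop⟩ = inc Z := by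
    ext z
    · change ((Circle.exp (2 * Real.pi * 0) : Circle) : ℂ) = ((1 : Circle) : ℂ)
      rw [mul_zero, Circle.exp_zero]
    · rfl
  have e2 : ∀ i, AddMonoidHom.id (HH i Z) - Hm i ((Homeomorph.refl Z : Z ≃ₜ Z) : C(Z, Z)) = 0 := by
    intro i
    have : ((Homeomorph.refl Z : Z ≃ₜ Z) : C(Z, Z)) = ContinuousMap.id Z := rfl
    rw [this, hF.id, sub_self]
  simp only [e2, e] at h1 h2 h3 h4
  refine ⟨D, fun i => ?_, h2, fun i x => ?_, h4⟩
  · rw [injective_iff_map_eq_zero]
    intro x hx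
    obtain ⟨y, rfl⟩ := (h1 i x).1 hx
    rfl
  · exact (h3 i x).1 rfl

/-- homotopy equivalences induce bijections -/
theorem bij_of_hequiv (hF : FunctStatement) {X Y : Type} [TopologicalSpace X]
    [TopologicalSpace Y] (f : C(X, Y)) (g : C(Y, X)) (h1 : (g.comp f).Homotopic (ContinuousMap.id X))
    (h2 : (f.comp g).Homotopic (ContinuousMap.id Y)) (i : ℕ) : Function.Bijective (Hm i f) := by
  have e1 := hF.homotopy i X X _ _ h1
  have e2 := hF.homotopy i Y Y _ _ h2
  rw [hF.comp, hF.id] at e1 e2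
  refine Function.bijective_iff_has_inverse.2 ⟨Hm i g, fun x => ?_, fun x => ?_⟩
  · exact DFunLike.congr_fun e1 x
  · exact DFunLike.congr_fun e2 x

theorem bij_homeo (hF : FunctStatement) {X Y : Type} [TopologicalSpace X] [TopologicalSpace Y]
    (e : X ≃ₜ Y) (i : ℕ) : Function.Bijective (Hm i (e : C(X, Y))) := by
  refine bij_of_hequiv hF (e : C(X, Y)) (e.symm : C(Y, X)) ?_ ?_ i
  · have : (e.symm : C(Y, X)).comp (e : C(X, Y)) = ContinuousMap.id X := by
      ext x; simp
    rw [this]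
  · have : (e : C(X, Y)).comp (e.symm : C(Y, X)) = ContinuousMap.id Y := by
      ext x; simp
    rw [this]

/-- degree zero and one, from the exact sequence -/
theorem equiv_D {Z : Type} [TopologicalSpace Z]
    (D : ∀ i : ℕ, HH (i + 1) (Circle × Z) →+ HH i Z)
    (h2 : ∀ i, Function.Exact (Hm (i + 1) (inc Z)) (D i))
    (h3 : ∀ i, Function.Surjective (D i)) (i : ℕ) (hs : Subsingleton (HH (i + 1) Z)) :
    Function.Bijective (D i) := by
  refine ⟨?_, h3 i⟩
  rw [injective_iff_map_eq_zero]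
  intro x hx
  obtain ⟨y, rfl⟩ := (h2 i x).1 hx
  rw [Subsingleton.elim y 0, map_zero]

end Neck2

open Neck2

/-- module CXS -/
theorem cxs (hF : FunctStatement) (h0 : H0Statement) (hS : SphStatement) (hW : WangStatement) :
    CxSStatement := by
  obtain ⟨D, h1, h2, h3, h4⟩ := wang_circle hF hW (Sn 3)
  have : PathConnectedSpace (Sn 3) := hS.pathConnected 3 (by norm_num)
  have hz : ∀ i, i ≠ 0 → i ≠ 3 → Subsingleton (HH i (Sn 3)) := fun i a b =>
    hS.zero 3 i (by norm_num) a b
  constructor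
  · intro i hi
    rcases hi with rfl | rfl | rfl | rfl
    · exact h0.int _
    · obtain ⟨e⟩ := h0.int (Sn 3)
      exact ⟨(AddEquiv.ofBijective (D 0) (equiv_D D h2 h3 0 (hz 1 (by norm_num)
        (by norm_num)))).trans e⟩
    · obtain ⟨e⟩ := hS.top 3 (by norm_num)
      have hb : Function.Bijective (Hm 3 (inc (Sn 3))) := by
        refine ⟨h1 3, fun x => ?_⟩
        have : Subsingleton (HH 2 (Sn 3)) := hz 2 (by norm_num) (by norm_num)
        exact (h2 2 x).1 (Subsingleton.elim _ _)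
      exact ⟨(AddEquiv.ofBijective _ hb).symm.trans e⟩
    · obtain ⟨e⟩ := hS.top 3 (by norm_num)
      exact ⟨(AddEquiv.ofBijective (D 3) (equiv_D D h2 h3 3 (hz 4 (by norm_num)
        (by norm_num)))).trans e⟩
  · intro i a0 a1 a3 a4
    obtain ⟨j, rfl⟩ := Nat.exists_eq_succ_of_ne_zero a0
    have hj : Subsingleton (HH j (Sn 3)) := hz j (by omega) (by omega)
    have hi : Subsingleton (HH (j + 1) (Sn 3)) := hz (j + 1) (by omega) (by omega)
    refine ⟨fun x y => (equiv_D D h2 h3 j hi).1 (Subsingleton.elim _ _)⟩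

/-! ### the neck -/

namespace Neck2

/-- the spherical shell -/
abbrev Ann (m : ℕ) : Type := {b : Eu (m + 2) // 0 < ‖b‖ ∧ ‖b‖ < 1 / 2}

/-- the neck is a product -/
def neckHomeo (m : ℕ) : Circle × Ann m ≃ₜ Neck m where
  toFun q := ⟨(q.1, q.2.1), q.2.2⟩
  invFun q := (q.1.1, ⟨q.1.2, q.2⟩)
  left_inv q := rfl
  right_inv q := rfl
  continuous_toFun := by fun_prop
  continuous_invFun := by fun_prop

/-- the small sphere in the shell -/
def eA (m : ℕ) : C(Sn (m + 1), Ann m) where
  toFun u := ⟨(1 / 4 : ℝ) • (u : Eu (m + 2)), by rw [norm_small]; constructor <;> norm_num⟩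
  continuous_toFun := by
    refine Continuous.subtype_mk ?_ _
    fun_prop

/-- the radial projection -/
def rA (m : ℕ) : C(Ann m, Sn (m + 1)) where
  toFun b := ⟨‖b.1‖⁻¹ • b.1, by
    rw [mem_sphere_zero_iff_norm, norm_smul, norm_inv, norm_norm, inv_mul_cancel₀ b.2.1.ne']⟩
  continuous_toFun := by
    refine Continuous.subtype_mk ?_ _
    have : ∀ b : Ann m, ‖b.1‖ ≠ 0 := fun b => b.2.1.ne'
    fun_prop (disch := assumption)

theorem rA_eA (m : ℕ) : (rA m).comp (eA m) = ContinuousMap.id (Sn (m + 1)) := by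
  apply ContinuousMap.ext
  intro u
  apply Subtype.ext
  change ‖(1 / 4 : ℝ) • (u : Eu (m + 2))‖⁻¹ • ((1 / 4 : ℝ) • (u : Eu (m + 2))) = (u : Eu (m + 2))
  rw [norm_small, smul_smul]
  norm_num

/-- the homotopy of the shell to the small sphere -/
def hA (m : ℕ) : ContinuousMap.Homotopy ((eA m).comp (rA m)) (ContinuousMap.id (Ann m)) where
  toFun q := ⟨((1 - (q.1 : ℝ)) * (1 / 4 * ‖q.2.1‖⁻¹) + q.1) • q.2.1, by
    have h1 := q.2.2.1
    have h2 := q.2.2.2
    have h3 := q.1.2.1
    have h4 := q.1.2.2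
    have h5 : ‖((1 - (q.1 : ℝ)) * (1 / 4 * ‖q.2.1‖⁻¹) + q.1) • q.2.1‖ =
        (1 - (q.1 : ℝ)) * (1 / 4) + q.1 * ‖q.2.1‖ := by
      rw [norm_smul, Real.norm_eq_abs, abs_of_nonneg]
      · have : ‖q.2.1‖ ≠ 0 := h1.ne'
        field_simp
      · have : 0 ≤ ‖q.2.1‖⁻¹ := by positivity
        have h6 : 0 ≤ 1 - (q.1 : ℝ) := by linarith
        positivity
    rw [h5]
    constructor
    · rcases h3.eq_or_lt with h | h
      · rw [← h]; norm_num
      · have : 0 < (q.1 : ℝ) * ‖q.2.1‖ := by positivity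
        nlinarith
    · rcases h3.eq_or_lt with h | h
      · rw [← h]; norm_num
      · nlinarith⟩
  continuous_toFun := by
    refine Continuous.subtype_mk ?_ _
    have : ∀ q : unitInterval × Ann m, ‖q.2.1‖ ≠ 0 := fun q => q.2.2.1.ne'
    fun_prop (disch := assumption)
  map_zero_left b := by
    apply Subtype.ext
    change ((1 - ((0 : unitInterval) : ℝ)) * (1 / 4 * ‖b.1‖⁻¹) + ((0 : unitInterval) : ℝ)) • b.1 =
      (1 / 4 : ℝ) • (‖b.1‖⁻¹ • b.1)
    rw [smul_smul]
    congr 1
    simp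
  map_one_left b := by
    apply Subtype.ext
    change ((1 - ((1 : unitInterval) : ℝ)) * (1 / 4 * ‖b.1‖⁻¹) + ((1 : unitInterval) : ℝ)) • b.1 = b.1
    simp

theorem eA_bij (hF : FunctStatement) (m i : ℕ) : Function.Bijective (Hm i (eA m)) := by
  refine bij_of_hequiv hF (eA m) (rA m) ?_ ⟨hA m⟩ i
  rw [rA_eA]

theorem smallN_eq (m : ℕ) : smallN m = ((neckHomeo m : C(Circle × Ann m, Neck m)).comp
    (inc (Ann m))).comp (eA m) := rfl

/-- a surjection between infinite cyclic groups is injective -/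
theorem bij_of_surj {G H : Type} [AddCommGroup G] [AddCommGroup H] (e : G ≃+ ℤ) (e' : H ≃+ ℤ)
    (f : G →+ H) (hf : Function.Surjective f) : Function.Bijective f := by
  refine ⟨?_, hf⟩
  have h1 : Function.Surjective ((e'.toAddMonoidHom.comp f).comp e.symm.toAddMonoidHom) :=
    (e'.surjective.comp hf).comp e.symm.surjective
  have h2 : Function.Injective ((e'.toAddMonoidHom.comp f).comp e.symm.toAddMonoidHom) := by
    set g := (e'.toAddMonoidHom.comp f).comp e.symm.toAddMonoidHom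
    have hg : ∀ n : ℤ, g n = n * g 1 := by
      intro n
      have := map_zsmul g n (1 : ℤ)
      simpa using this
    have hne : g 1 ≠ 0 := by
      intro h
      obtain ⟨n, hn⟩ := h1 1
      rw [hg n, h, mul_zero] at hn
      exact zero_ne_one hn
    intro a b hab
    rw [hg a, hg b] at hab
    exact mul_right_cancel₀ hne hab
  intro x y hxy
  have h3 : e x = e y := by
    apply h2
    simp [hxy]
  exact e.injective h3

end Neck2

open Neck2

/-- module NECK -/
theorem neck (hF : FunctStatement) (h0 : H0Statement) (hS : SphStatement) (hW : WangStatement) :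
    NeckStatement := by
  have hpA : ∀ m : ℕ, PathConnectedSpace (Ann m) := by
    intro m
    have h1 : PathConnectedSpace (Sn (m + 1)) := hS.pathConnected (m + 1) (by omega)
    have h2 : PathConnectedSpace (Ioo (0 : ℝ) (1 / 2)) :=
      isPathConnected_iff_pathConnectedSpace.1
        ((convex_Ioo (0 : ℝ) (1 / 2)).isPathConnected ⟨1 / 4, by norm_num⟩)
    have hn : ∀ q : Ioo (0 : ℝ) (1 / 2) × Sn (m + 1),
        ‖(q.1 : ℝ) • (q.2 : Eu (m + 2))‖ = q.1 := by
      intro q
      rw [norm_smul, norm_eq_of_mem_sphere, mul_one, Real.norm_eq_abs, abs_of_pos q.1.2.1]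
    refine Function.Surjective.pathConnectedSpace
      (f := fun q : Ioo (0 : ℝ) (1 / 2) × Sn (m + 1) =>
        (⟨(q.1 : ℝ) • (q.2 : Eu (m + 2)), by rw [hn]; exact q.1.2⟩ : Ann m)) ?_ ?_
    · intro b
      refine ⟨(⟨‖b.1‖, b.2⟩, rA m b), ?_⟩
      apply Subtype.ext
      change ‖b.1‖ • (‖b.1‖⁻¹ • b.1) = b.1
      rw [smul_smul, mul_inv_cancel₀ b.2.1.ne', one_smul]
    · refine Continuous.subtype_mk ?_ _
      fun_prop
  have hpN : ∀ m : ℕ, PathConnectedSpace (Neck m) := by
    intro m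
    have := hpA m
    exact (neckHomeo m).surjective.pathConnectedSpace (neckHomeo m).continuous
  have hz : ∀ m i, i ≠ 0 → i ≠ m + 1 → Subsingleton (HH i (Ann m)) := fun m i a b => by
    have := hS.zero (m + 1) i (by omega) a b
    exact (eA_bij hF m i).2.subsingleton
  have ht : ∀ m, Nonempty (HH (m + 1) (Ann m) ≃+ ℤ) := fun m => by
    obtain ⟨e⟩ := hS.top (m + 1) (by omega)
    exact ⟨(AddEquiv.ofBijective _ (eA_bij hF m (m + 1))).symm.trans e⟩
  have W := fun m => wang_circle hF hW (Ann m)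
  have nb : ∀ m i, Function.Bijective (Hm i (neckHomeo m : C(Circle × Ann m, Neck m))) :=
    fun m i => bij_homeo hF (neckHomeo m) i
  have eN : ∀ m i, Nonempty (HH i (Circle × Ann m) ≃+ HH i (Neck m)) := fun m i =>
    ⟨AddEquiv.ofBijective _ (nb m i)⟩
  -- the homology above the dimension
  have hzN : ∀ m i, m + 3 ≤ i → Subsingleton (HH i (Neck m)) := by
    intro m i hi
    obtain ⟨D, h1, h2, h3, h4⟩ := W m
    obtain ⟨j, rfl⟩ : ∃ j, i = j + 1 := ⟨i - 1, by omega⟩
    have hj : Subsingleton (HH j (Ann m)) := hz m j (by omega) (by omega)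
    have hi : Subsingleton (HH (j + 1) (Ann m)) := hz m (j + 1) (by omega) (by omega)
    have : Subsingleton (HH (j + 1) (Circle × Ann m)) :=
      ⟨fun x y => (equiv_D D h2 h3 j hi).1 (Subsingleton.elim _ _)⟩
    exact (nb m (j + 1)).2.subsingleton
  -- the top homology
  have htN : ∀ m, Nonempty (HH (m + 2) (Neck m) ≃+ ℤ) := by
    intro m
    obtain ⟨D, h1, h2, h3, h4⟩ := W m
    have hi : Subsingleton (HH (m + 2) (Ann m)) := hz m (m + 2) (by omega) (by omega)
    obtain ⟨e⟩ := ht m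
    obtain ⟨e'⟩ := eN m (m + 2)
    exact ⟨(e'.symm.trans (AddEquiv.ofBijective (D (m + 1))
      (equiv_D D h2 h3 (m + 1) hi))).trans e⟩
  -- the degree-one homology for `m = 1`
  have h1N : Nonempty (HH 1 (Neck 1) ≃+ ℤ) := by
    obtain ⟨D, h1, h2, h3, h4⟩ := W 1
    have hi : Subsingleton (HH 1 (Ann 1)) := hz 1 1 (by omega) (by omega)
    have := hpA 1
    obtain ⟨e⟩ := h0.int (Ann 1)
    obtain ⟨e'⟩ := eN 1 1
    exact ⟨(e'.symm.trans (AddEquiv.ofBijective (D 0) (equiv_D D h2 h3 0 hi))).trans e⟩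
  have hgen : ∀ g₀ : HH 2 (Sn 2), Hm 2 (smallN 1) g₀ =
      Hm 2 (neckHomeo 1 : C(Circle × Ann 1, Neck 1)) (Hm 2 (inc (Ann 1)) (Hm 2 (eA 1) g₀)) := by
    intro g₀
    rw [smallN_eq, hF.comp, hF.comp]
    rfl
  constructor
  · exact hpN
  · exact htN 0
  · intro i hi
    exact hzN 0 i hi
  · obtain ⟨e⟩ := h1N
    obtain ⟨e'⟩ := hS.circle
    refine bij_of_surj e e' _ ?_
    let b0 : Eu 3 := EuclideanSpace.single 0 (1 / 4)
    have hb0 : ‖b0‖ = 1 / 4 := by
      simp [b0]
    let s : C(Circle, Neck 1) := ⟨fun z => ⟨(z, b0), by rw [hb0]; constructor <;> norm_num⟩,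
      by fun_prop⟩
    have hs : (prNeck 1).comp s = ContinuousMap.id Circle := rfl
    intro x
    refine ⟨Hm 1 s x, ?_⟩
    have := DFunLike.congr_fun (hF.comp 1 _ _ _ s (prNeck 1)) x
    rw [hs, hF.id] at this
    exact this.symm
  · intro g₀ hg x
    obtain ⟨D, h1, h2, h3, h4⟩ := W 1
    obtain ⟨y, rfl⟩ := (nb 1 2).2 x
    have hi : Subsingleton (HH 1 (Ann 1)) := hz 1 1 (by omega) (by omega)
    obtain ⟨z, rfl⟩ := (h2 1 y).1 (Subsingleton.elim _ _)
    obtain ⟨w, rfl⟩ := (eA_bij hF 1 2).2 z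
    obtain ⟨a, rfl⟩ := hg w
    refine ⟨a, ?_⟩
    rw [hgen, map_zsmul, map_zsmul, map_zsmul]
  · intro g₀ hg a ha
    obtain ⟨D, h1, h2, h3, h4⟩ := W 1
    rw [hgen, ← map_zsmul, ← map_zsmul, ← map_zsmul] at ha
    have h5 : a • g₀ = 0 := by
      apply (eA_bij hF 1 2).1
      apply h1 2
      apply (nb 1 2).1
      rw [ha, map_zero, map_zero, map_zero]
    obtain ⟨e⟩ := hS.top 2 (by norm_num)
    by_contra hne
    have h6 : e g₀ = 0 := by
      have : a * e g₀ = 0 := by
        have := congrArg e h5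
        rw [map_zsmul, map_zero] at this
        simpa using this
      exact (mul_eq_zero.1 this).resolve_left hne
    obtain ⟨b, hb⟩ := hg (e.symm 1)
    have h7 := congrArg e hb
    rw [map_zsmul, h6] at h7
    simp at h7
  · exact htN 1
  · intro i hi
    exact hzN 1 i hi

end Pool.Agent.S1S3
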