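import Pool.Agent.Helper26_S1S3.Chains

/-!
# Module WIND: the winding number of singular one-cycles in the circle
-/

set_option autoImplicit false
set_option linter.unusedSectionVars false

open scoped Manifold ContDiff Topology
open CategoryTheory Set

noncomputable section

namespace Pool.Agent.S1S3

namespace Wind

/-- every circle-valued function on a contractible space has a logarithm -/
theorem exists_log {A : Type} [TopologicalSpace A] [ContractibleSpace A] (f : C(A, Circle)) :
    ∃ u : C(A, ℝ), ∀ x, Circle.exp (u x) = f x := by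
  obtain ⟨y, ⟨F⟩⟩ := id_nullhomotopic A
  let G := F.symm
  obtain ⟨e0, he0⟩ := Circle.exp_surjective (f y)
  let H : C(unitInterval × A, Circle) := f.comp G.toContinuousMap
  have hH : ∀ a, H (0, a) = Circle.exp ((ContinuousMap.const A e0) a) := by
    intro a
    change f (G (0, a)) = Circle.exp e0
    rw [G.apply_zero, he0]
    rfl
  let L := Circle.isCoveringMap_exp.liftHomotopy H (ContinuousMap.const A e0) hH
  refine ⟨⟨fun x => L (1, x), by fun_prop⟩, fun x => ?_⟩
  have h1 := congrFun (Circle.isCoveringMap_exp.liftHomotopy_lifts H (ContinuousMap.const A e0) hH)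
    (1, x)
  change Circle.exp (L (1, x)) = H (1, x) at h1
  change Circle.exp (L (1, x)) = f x
  rw [h1]
  change f (G (1, x)) = f x
  rw [G.apply_one]
  rfl

/-- two logarithms differ by a constant -/
theorem log_diff {A : Type} [TopologicalSpace A] [PreconnectedSpace A] (u v : C(A, ℝ))
    (h : ∀ x, Circle.exp (u x) = Circle.exp (v x)) (x y : A) : u x - u y = v x - v y := by
  have h1 : (fun z => u z) = fun z => v z + (u y - v y) := by
    refine Circle.isCoveringMap_exp.eq_of_comp_eq u.continuous (by fun_prop) ?_ y (by ring)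
    funext z
    change Circle.exp (u z) = Circle.exp (v z + (u y - v y))
    rw [Circle.exp_add, Circle.exp_sub, h z, h y, div_self', mul_one]
  have h2 : u x = v x + (u y - v y) := congrFun h1 x
  rw [h2]; ring

instance contr_simplex (n : ℕ) : ContractibleSpace (stdSimplex ℝ (Fin (n + 1))) :=
  (convex_stdSimplex ℝ (Fin (n + 1))).contractibleSpace ⟨_, single_mem_stdSimplex ℝ 0⟩

/-- the point of the zero-simplex -/
def pt : stdSimplex ℝ (Fin 1) := default

/-- the end of the one-simplex -/
def p1 : stdSimplex ℝ (Fin 2) := faceC 0 0 pt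

/-- the origin of the one-simplex -/
def p0 : stdSimplex ℝ (Fin 2) := faceC 0 1 pt

/-- the logarithm of a simplex -/
def logS {n : ℕ} (σ : Sx n Circle) : C(stdSimplex ℝ (Fin (n + 1)), ℝ) := (exists_log σ).choose

theorem exp_logS {n : ℕ} (σ : Sx n Circle) (x : stdSimplex ℝ (Fin (n + 1))) :
    Circle.exp (logS σ x) = σ x := (exists_log σ).choose_spec x

/-- the winding of a one-simplex -/
def wS (σ : Sx 1 Circle) : ℝ := logS σ p1 - logS σ p0

theorem wS_eq (σ : Sx 1 Circle) (u : C(stdSimplex ℝ (Fin 2), ℝ))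
    (h : ∀ x, Circle.exp (u x) = σ x) : wS σ = u p1 - u p0 :=
  log_diff _ _ (fun x => by rw [exp_logS, h]) _ _

/-- the winding of a one-chain -/
def wC : Ch 1 Circle →+ ℝ :=
  Finsupp.liftAddHom fun σ => (AddMonoidHom.mulRight (wS σ)).comp (Int.castAddHom ℝ)

theorem wC_single (σ : Sx 1 Circle) (a : ℤ) : wC (Finsupp.single σ a) = a * wS σ := by
  simp [wC]

theorem face_face (i j : Fin 3) (k l : Fin 2)
    (h : ∀ x : Fin 1, i.succAbove (k.succAbove x) = j.succAbove (l.succAbove x)) :
    faceC 1 i (faceC 0 k pt) = faceC 1 j (faceC 0 l pt) := by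
  change stdSimplex.map i.succAbove (stdSimplex.map k.succAbove pt) =
    stdSimplex.map j.succAbove (stdSimplex.map l.succAbove pt)
  rw [stdSimplex.map_comp_apply, stdSimplex.map_comp_apply]
  congr 1
  funext x
  exact h x

theorem wC_bd (c : Ch 2 Circle) : wC (bd 1 c) = 0 := by
  induction c using Finsupp.induction_linear with
  | zero => simp
  | add c d hc hd => rw [map_add, map_add, hc, hd, add_zero]
  | single σ a =>
    rw [bd_single, map_sum]
    simp only [wC_single]
    have h1 : ∀ i : Fin 3, wS (σ.comp (faceC 1 i)) =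
        logS σ (faceC 1 i p1) - logS σ (faceC 1 i p0) := by
      intro i
      have h2 := wS_eq (σ.comp (faceC 1 i)) ((logS σ).comp (faceC 1 i)) (fun x => by
        change Circle.exp (logS σ (faceC 1 i x)) = σ (faceC 1 i x)
        rw [exp_logS])
      rw [h2]
      rfl
    rw [Fin.sum_univ_three, h1 0, h1 1, h1 2]
    have e1 : faceC 1 0 p1 = faceC 1 1 p1 := face_face 0 1 0 0 (by decide)
    have e2 : faceC 1 0 p0 = faceC 1 2 p1 := face_face 0 2 1 0 (by decide)
    have e3 : faceC 1 1 p0 = faceC 1 2 p0 := face_face 1 2 1 1 (by decide)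
    rw [e1, e2, e3]
    push_cast
    simp
    ring

/-- the value of a zero-chain in the circle -/
def eC : Ch 0 Circle →+ Additive Circle :=
  Finsupp.liftAddHom fun σ => zmultiplesHom (Additive Circle) (Additive.ofMul (σ pt))

theorem eC_single (σ : Sx 0 Circle) (a : ℤ) :
    eC (Finsupp.single σ a) = a • Additive.ofMul (σ pt) := by
  simp [eC]

theorem exp_wC (c : Ch 1 Circle) : Circle.expHom (wC c) = eC (bd 0 c) := by
  induction c using Finsupp.induction_linear with
  | zero => simp
  | add c d hc hd => rw [map_add, map_add, hc, hd, map_add, map_add]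
  | single σ a =>
    rw [bd_single, map_sum, Fin.sum_univ_two, eC_single, eC_single, wC_single]
    have h1 : (a : ℝ) * wS σ = a • wS σ := by simp
    rw [h1, map_zsmul]
    have h2 : Circle.expHom (wS σ) = Additive.ofMul (σ p1) - Additive.ofMul (σ p0) := by
      unfold wS
      rw [map_sub]
      have h3 : ∀ x, Circle.expHom (logS σ x) = Additive.ofMul (σ x) := by
        intro x
        rw [← exp_logS σ x]
        rfl
      rw [h3, h3]
    rw [h2]
    change a • (Additive.ofMul (σ p1) - Additive.ofMul (σ p0)) =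
      ((-1) ^ 0 * a) • Additive.ofMul (σ p1) + ((-1) ^ 1 * a) • Additive.ofMul (σ p0)
    simp [sub_eq_add_neg]

theorem wC_cycle {c : Ch 1 Circle} (h : c ∈ Cyc 1 Circle) :
    ∃ n : ℤ, wC c = n * (2 * Real.pi) := by
  have h0 : bd 0 c = 0 := h
  have h1 := exp_wC c
  rw [h0, map_zero] at h1
  have h2 : Circle.exp (wC c) = 1 := h1
  exact Circle.exp_eq_one.1 h2

/-- the winding number of a cycle -/
def wR (c : Ch 1 Circle) : ℤ := round (wC c / (2 * Real.pi))

theorem wR_eq (c : Ch 1 Circle) (n : ℤ) (h : wC c = n * (2 * Real.pi)) : wR c = n := by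
  have hpi : (2 * Real.pi) ≠ 0 := by positivity
  unfold wR
  rw [h, mul_div_assoc, div_self hpi, mul_one, round_intCast]

theorem wR_spec {c : Ch 1 Circle} (h : c ∈ Cyc 1 Circle) : wC c = wR c * (2 * Real.pi) := by
  obtain ⟨n, hn⟩ := wC_cycle h
  rw [wR_eq c n hn, hn]

/-- the winding number of a cycle -/
def wZ : Cyc 1 Circle →+ ℤ where
  toFun c := wR c
  map_zero' := wR_eq _ _ (by simp)
  map_add' c d := wR_eq _ _ (by
    have h0 : wC ((c + d : Cyc 1 Circle) : Ch 1 Circle) = wC c + wC d := by simp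
    rw [h0, wR_spec c.2, wR_spec d.2]
    push_cast
    ring)

theorem wZ_spec (c : Cyc 1 Circle) : wC c = wZ c * (2 * Real.pi) := wR_spec c.2

theorem wZ_eq (c : Cyc 1 Circle) (n : ℤ) (h : wC c = n * (2 * Real.pi)) : wZ c = n :=
  wR_eq _ _ h

theorem wZ_bd (c : Cyc 1 Circle) (h : (c : Ch 1 Circle) ∈ Bnd 1 Circle) : wZ c = 0 := by
  obtain ⟨d, hd⟩ := h
  apply wZ_eq
  rw [← hd, wC_bd]
  simp

theorem cont_coord : Continuous fun x : stdSimplex ℝ (Fin 2) => 2 * Real.pi * x 0 :=
  continuous_const.mul ((continuous_apply (0 : Fin 2)).comp continuous_subtype_val)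

/-- the standard cycle -/
def sig : Sx 1 Circle := ⟨fun x => Circle.exp (2 * Real.pi * x 0),
  Circle.exp.continuous.comp cont_coord⟩

theorem wS_pow (n : ℤ) (σ : Sx 1 Circle) : wS ((powC n).comp σ) = n * wS σ := by
  have h := wS_eq ((powC n).comp σ) ⟨fun x => n * logS σ x, by fun_prop⟩ (fun x => by
    change Circle.exp (n * logS σ x) = (σ x) ^ n
    rw [← exp_logS σ x, ← Circle.exp_zsmul]
    simp)
  rw [h]
  change (n : ℝ) * logS σ p1 - n * logS σ p0 = n * wS σ
  unfold wS
  ring

theorem wC_pow (n : ℤ) (c : Ch 1 Circle) : wC (push 1 (powC n) c) = n * wC c := by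
  induction c using Finsupp.induction_linear with
  | zero => simp
  | add c d hc hd => rw [map_add, map_add, hc, hd, map_add]; ring
  | single σ a =>
    rw [push_single, wC_single, wC_single, wS_pow]
    ring

theorem wZ_pow (n : ℤ) (c : Cyc 1 Circle) :
    wZ ⟨push 1 (powC n) c, push_mem_Cyc (powC n) c.2⟩ = n * wZ c := by
  apply wZ_eq
  rw [wC_pow, wZ_spec]
  push_cast
  ring

theorem exists_one : ∃ c : Cyc 1 Circle, wZ c = 1 := by
  have h0 : (p1 : stdSimplex ℝ (Fin 2)) 0 = 0 ∧ (p0 : stdSimplex ℝ (Fin 2)) 0 = 1 := by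
    have e : (pt : stdSimplex ℝ (Fin 1)) = stdSimplex.vertex 0 := Subsingleton.elim _ _
    constructor
    · change (stdSimplex.map (Fin.succAbove 0) pt) 0 = 0
      rw [e, stdSimplex.map_vertex]
      simp
    · change (stdSimplex.map (Fin.succAbove 1) pt) 0 = 1
      rw [e, stdSimplex.map_vertex]
      simp
  have h1 : wS sig = -(2 * Real.pi) := by
    rw [wS_eq sig ⟨_, cont_coord⟩ (fun x => rfl)]
    change 2 * Real.pi * p1 0 - 2 * Real.pi * p0 0 = _
    rw [h0.1, h0.2]
    ring
  have h2 : Finsupp.single sig (-1) ∈ Cyc 1 Circle := by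
    change bd 0 (Finsupp.single sig (-1)) = 0
    rw [bd_single, Fin.sum_univ_two]
    have h3 : sig.comp (faceC 0 0) = sig.comp (faceC 0 1) := by
      ext x
      have hx : x = pt := Subsingleton.elim _ _
      rw [hx]
      change ((Circle.exp (2 * Real.pi * p1 0) : Circle) : ℂ) = Circle.exp (2 * Real.pi * p0 0)
      rw [h0.1, h0.2]
      simp
    rw [h3]
    simp
  refine ⟨⟨_, h2⟩, wZ_eq _ _ ?_⟩
  change wC (Finsupp.single sig (-1)) = _
  rw [wC_single, h1]
  push_cast
  ring

end Wind

open Wind in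
theorem wind (h1 : MV1Statement) : WindStatement := by
  obtain ⟨cls, hs, hk, hn⟩ := h1
  have hker : (cls 1 Circle).ker ≤ wZ.ker := by
    intro c hc
    exact wZ_bd c ((hk 1 Circle c).1 hc)
  let W : HH 1 Circle →+ ℤ := (cls 1 Circle).liftOfSurjective (hs 1 Circle) ⟨wZ, hker⟩
  have hW : ∀ c, W (cls 1 Circle c) = wZ c := fun c =>
    AddMonoidHom.liftOfRightInverse_comp_apply _ _ _ _ _
  refine ⟨W, ?_, ?_⟩
  · intro n
    obtain ⟨c, hc⟩ := exists_one
    refine ⟨n • cls 1 Circle c, ?_⟩
    rw [map_zsmul, hW, hc]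
    simp
  · intro n x
    obtain ⟨c, rfl⟩ := hs 1 Circle x
    rw [hn, hW, hW, wZ_pow]

end Pool.Agent.S1S3
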